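import Pool.Agent.H79.QN.Stmts

/-!
# Board `qn`, row AC6 (helper56): two points with the same direction
-/

set_option autoImplicit false

namespace Pool.Agent.H79.QN

/-- the real form: `z = (a, b)`, `z₀ = (x, y)`, `v = (p, q)`, `d = (m, n)` -/
private theorem ac6_key (a b p q m n x y r K l B : ℝ) (hr : 1 ≤ r) (h0 : r ^ 2 = x ^ 2 + y ^ 2)
    (hK0 : 1 ≤ K) (hK : 1000 * K ≤ r) (hl : 1000 * l ≤ r) (hl1 : 1 ≤ l) (hV1 : 1 ≤ p ^ 2 + q ^ 2)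
    (hV : p ^ 2 + q ^ 2 ≤ 4 * l ^ 2) (hD : 1 ≤ m ^ 2 + n ^ 2) (hB0 : 0 ≤ B) (hB : B ≤ 20 * K)
    (hZ : r ^ 2 - K ≤ a ^ 2 + b ^ 2)
    (hA : 2 * |a * p + b * q| ≤ 2 * K + (p ^ 2 + q ^ 2)) (hE : |a * m + b * n| ≤ B)
    (hF : |p * m + q * n| ≤ 2 * B) :
    (x * q - y * p) ^ 2 * (m ^ 2 + n ^ 2) ≤ 16 * r ^ 2 * B ^ 2 := by
  set V := p ^ 2 + q ^ 2 with hVdef
  set D := m ^ 2 + n ^ 2 with hDdef
  set Z := a ^ 2 + b ^ 2 with hZdef
  set A := a * p + b * q with hAdef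
  set E := a * m + b * n with hEdef
  set F := p * m + q * n with hFdef
  have hV0 : 0 ≤ V := by linarith
  have hD0 : 0 ≤ D := by linarith
  have hr0 : 0 < r := by linarith
  have hr2 : r ≤ r ^ 2 := by nlinarith
  have hZ1 : (999 / 1000) * r ^ 2 ≤ Z := by nlinarith
  have hZ0 : 0 < Z := lt_of_lt_of_le (by positivity) hZ1
  -- `A² ≤ r² V / 250000`
  have hA2 : A ^ 2 ≤ r ^ 2 * V / 250000 := by
    set s := Real.sqrt V with hs
    have hs2 : s ^ 2 = V := Real.sq_sqrt hV0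
    have hs0 : 0 ≤ s := Real.sqrt_nonneg V
    have hs1 : 1 ≤ s := by
      rw [hs]
      exact Real.one_le_sqrt.2 hV1
    have hsl : s ≤ 2 * l := by
      apply le_of_sq_le_sq _ (by linarith)
      rw [hs2]
      nlinarith
    have h1 : |A| ≤ r * s / 500 := by
      have h2 : V ≤ 2 * l * s := by
        rw [← hs2]
        nlinarith
      have h3 : K ≤ r * s / 1000 := by nlinarith
      have h4 : l * s ≤ r * s / 1000 := by nlinarith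
      nlinarith
    have h5 : A ^ 2 = |A| ^ 2 := (sq_abs A).symm
    rw [h5]
    calc |A| ^ 2 ≤ (r * s / 500) ^ 2 := pow_le_pow_left₀ (abs_nonneg A) h1 2
      _ = r ^ 2 * V / 250000 := by rw [← hs2]; ring
  -- `E² ≤ r² D / 2500`
  have hE2 : E ^ 2 ≤ r ^ 2 * D / 2500 := by
    have h1 : |E| ≤ r / 50 := by linarith
    have h5 : E ^ 2 = |E| ^ 2 := (sq_abs E).symm
    rw [h5]
    calc |E| ^ 2 ≤ (r / 50) ^ 2 := pow_le_pow_left₀ (abs_nonneg E) h1 2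
      _ = r ^ 2 * 1 / 2500 := by ring
      _ ≤ r ^ 2 * D / 2500 := by
        have : r ^ 2 * 1 ≤ r ^ 2 * D := mul_le_mul_of_nonneg_left hD (by positivity)
        linarith
  have hF2 : F ^ 2 ≤ 4 * B ^ 2 := by
    have h5 : F ^ 2 = |F| ^ 2 := (sq_abs F).symm
    rw [h5]
    calc |F| ^ 2 ≤ (2 * B) ^ 2 := pow_le_pow_left₀ (abs_nonneg F) hF 2
      _ = 4 * B ^ 2 := by ring
  -- the determinant of `v` and `d`
  set C := p * n - q * m with hCdef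
  set G := a * n - b * m with hGdef
  set H := a * q - b * p with hHdef
  have i1 : F ^ 2 + C ^ 2 = V * D := by
    rw [hFdef, hCdef, hVdef, hDdef]; ring
  have i2 : Z * C = A * G - E * H := by
    rw [hZdef, hCdef, hAdef, hGdef, hEdef, hHdef]; ring
  have i3 : G ^ 2 + E ^ 2 = Z * D := by
    rw [hGdef, hEdef, hZdef, hDdef]; ring
  have i4 : H ^ 2 + A ^ 2 = Z * V := by
    rw [hHdef, hAdef, hZdef, hVdef]; ring
  have hG : G ^ 2 ≤ Z * D := by nlinarith [sq_nonneg E]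
  have hH : H ^ 2 ≤ Z * V := by nlinarith [sq_nonneg A]
  have j1 : (Z * C) ^ 2 ≤ 2 * (A ^ 2 * G ^ 2) + 2 * (E ^ 2 * H ^ 2) := by
    rw [i2]
    nlinarith [sq_nonneg (A * G + E * H)]
  have j2 : A ^ 2 * G ^ 2 ≤ (r ^ 2 * V / 250000) * (Z * D) :=
    mul_le_mul hA2 hG (sq_nonneg G) (by positivity)
  have j3 : E ^ 2 * H ^ 2 ≤ (r ^ 2 * D / 2500) * (Z * V) :=
    mul_le_mul hE2 hH (sq_nonneg H) (by positivity)
  have j4 : Z * (Z * C ^ 2) ≤ Z * (r ^ 2 * (V * D) / 1000) := by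
    have hpos : 0 ≤ Z * (r ^ 2 * (V * D)) := by positivity
    nlinarith
  have j5 : Z * C ^ 2 ≤ r ^ 2 * (V * D) / 1000 := le_of_mul_le_mul_left j4 hZ0
  have j6 : (999 / 1000) * r ^ 2 * C ^ 2 ≤ r ^ 2 * (V * D) / 1000 :=
    (mul_le_mul_of_nonneg_right hZ1 (sq_nonneg C)).trans j5
  have j7 : C ^ 2 ≤ (V * D) / 2 := by
    have h1 : r ^ 2 * ((999 / 1000) * C ^ 2) ≤ r ^ 2 * ((V * D) / 1000) := by linarith
    have h2 := le_of_mul_le_mul_left h1 (by positivity)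
    nlinarith [mul_nonneg hV0 hD0, sq_nonneg C]
  have j8 : V * D ≤ 8 * B ^ 2 := by linarith
  have j9 : (x * q - y * p) ^ 2 ≤ r ^ 2 * V := by
    rw [h0, hVdef]
    nlinarith [sq_nonneg (x * p + y * q)]
  calc (x * q - y * p) ^ 2 * D ≤ r ^ 2 * V * D := mul_le_mul_of_nonneg_right j9 hD0
    _ = r ^ 2 * (V * D) := by ring
    _ ≤ r ^ 2 * (8 * B ^ 2) := mul_le_mul_of_nonneg_left j8 (by positivity)
    _ ≤ 16 * r ^ 2 * B ^ 2 := by
      have : 0 ≤ r ^ 2 * B ^ 2 := by positivity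
      linarith

theorem ac6 : S_AC6 := by
  intro z₀ r K l B d z z' hA hd hB0 hB hz hz' hzd hz'd
  obtain ⟨z1, z2⟩ := z
  obtain ⟨w1, w2⟩ := z'
  obtain ⟨d1, d2⟩ := d
  obtain ⟨x, y⟩ := z₀
  have hr := hA.r1
  have hsq := hA.rsq
  have hKr : 1000 * K ≤ r := by
    refine hA.Kr.trans ?_
    calc r ^ (2 / 3 : ℝ) ≤ r ^ (1 : ℝ) := Real.rpow_le_rpow_of_exponent_le hr (by norm_num)
      _ = r := Real.rpow_one r
  have a1 := hz.a
  have b1 := hz.b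
  have a2 := hz'.a
  have b2 := hz'.b
  simp only [nsq, dot, crs, Prod.fst_sub, Prod.snd_sub] at hsq a1 b1 a2 b2 hd hzd hz'd ⊢
  push_cast at hsq a1 b1 a2 b2 hzd hz'd ⊢
  have hdR : (1 : ℝ) ≤ (d1 : ℝ) ^ 2 + (d2 : ℝ) ^ 2 := by exact_mod_cast hd
  by_cases hv : (z1 - w1) ^ 2 + (z2 - w2) ^ 2 = 0
  · have h1 : z1 - w1 = 0 := by nlinarith [sq_nonneg (z1 - w1), sq_nonneg (z2 - w2)]
    have h2 : z2 - w2 = 0 := by nlinarith [sq_nonneg (z1 - w1), sq_nonneg (z2 - w2)]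
    have h3 : (z1 : ℝ) - w1 = 0 := by exact_mod_cast h1
    have h4 : (z2 : ℝ) - w2 = 0 := by exact_mod_cast h2
    rw [h3, h4, mul_zero, mul_zero, sub_zero]
    have : 0 ≤ 16 * r ^ 2 * B ^ 2 := by positivity
    simpa using this
  · have hv1 : (1 : ℤ) ≤ (z1 - w1) ^ 2 + (z2 - w2) ^ 2 := by
      have : 0 ≤ (z1 - w1) ^ 2 + (z2 - w2) ^ 2 := by positivity
      omega
    have hv1R : (1 : ℝ) ≤ ((z1 : ℝ) - w1) ^ 2 + ((z2 : ℝ) - w2) ^ 2 := by exact_mod_cast hv1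
    rw [abs_le] at b1 b2 hzd hz'd
    refine ac6_key (z1 : ℝ) z2 ((z1 : ℝ) - w1) ((z2 : ℝ) - w2) d1 d2 x y r K l B hr hsq hA.K1 hKr
      hA.lr hA.l1 hv1R ?_ hdR hB0 hB ?_ ?_ ?_ ?_
    · nlinarith [sq_nonneg (((z1 : ℝ) - x) + ((w1 : ℝ) - x)),
        sq_nonneg (((z2 : ℝ) - y) + ((w2 : ℝ) - y))]
    · linarith [b1.1]
    · have e1 : 2 * ((z1 : ℝ) * (z1 - w1) + z2 * (z2 - w2)) =
          (((z1 : ℝ) ^ 2 + z2 ^ 2) - (x ^ 2 + y ^ 2)) - (((w1 : ℝ) ^ 2 + w2 ^ 2) - (x ^ 2 + y ^ 2)) +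
          (((z1 : ℝ) - w1) ^ 2 + ((z2 : ℝ) - w2) ^ 2) := by ring
      have e2 : 2 * |(z1 : ℝ) * (z1 - w1) + z2 * (z2 - w2)| =
          |2 * ((z1 : ℝ) * (z1 - w1) + z2 * (z2 - w2))| := by
        rw [abs_mul, abs_two]
      rw [e2, e1, abs_le]
      constructor
      · linarith [b1.1, b2.2]
      · linarith [b1.2, b2.1]
    · rw [abs_le]
      exact hzd
    · rw [abs_le]
      constructor
      · linarith [hzd.1, hz'd.2]
      · linarith [hzd.2, hz'd.1]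

end Pool.Agent.H79.QN
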