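import Pool.Agent.H79.QN.Stmts3

/-!
# Board `qn`, row BLK (helper56): the fourth moment of a dyadic block on an interval
-/

set_option autoImplicit false

namespace Pool.Agent.H79.QN

open Finset MeasureTheory

private theorem blk_norm_ee (t : ℝ) : ‖Pool.QN.ee t‖ = 1 := by
  unfold Pool.QN.ee
  exact Complex.norm_exp_ofReal_mul_I _

private theorem blk_cont_ee : Continuous Pool.QN.ee := by
  unfold Pool.QN.ee
  fun_prop

/-- numbers: `1 + log (2 M)` and `clog M + 1` are at most `(2 + 4 / ε) M ^ (ε / 2)` -/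
private theorem blk_num (ε : ℝ) (hε : 0 < ε) (M : ℕ) (hM : 1 ≤ M) :
    1 + Real.log ((2 * M : ℕ) : ℝ) ≤ (2 + 4 / ε) * (M : ℝ) ^ (ε / 2) ∧
    ((Nat.clog 2 M : ℕ) : ℝ) + 1 ≤ (2 + 4 / ε) * (M : ℝ) ^ (ε / 2) := by
  have hM1 : (1 : ℝ) ≤ M := by exact_mod_cast hM
  have hM0 : (0 : ℝ) < M := by linarith
  have hp1 : (1 : ℝ) ≤ (M : ℝ) ^ (ε / 2) := Real.one_le_rpow hM1 (by positivity)
  have hlog : Real.log M ≤ (2 / ε) * (M : ℝ) ^ (ε / 2) := by
    have h := Real.log_le_rpow_div hM0.le (by positivity : 0 < ε / 2)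
    calc Real.log M ≤ (M : ℝ) ^ (ε / 2) / (ε / 2) := h
      _ = (2 / ε) * (M : ℝ) ^ (ε / 2) := by
        field_simp
  have hl0 : 0 ≤ Real.log M := Real.log_nonneg hM1
  have hmain : 2 + 2 * Real.log M ≤ (2 + 4 / ε) * (M : ℝ) ^ (ε / 2) := by
    have h1 : (2 + 4 / ε) * (M : ℝ) ^ (ε / 2) =
        2 * (M : ℝ) ^ (ε / 2) + 2 * ((2 / ε) * (M : ℝ) ^ (ε / 2)) := by ring
    rw [h1]
    linarith
  have hl2 : Real.log 2 ≤ 1 := by
    have := Real.log_two_lt_d9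
    linarith
  have hl2' : (1 / 2 : ℝ) ≤ Real.log 2 := by
    have := Real.log_two_gt_d9
    linarith
  constructor
  · refine le_trans ?_ hmain
    push_cast
    rw [Real.log_mul (by norm_num) hM0.ne']
    linarith
  · refine le_trans ?_ hmain
    rcases Nat.eq_or_lt_of_le hM with h1 | h1
    · rw [← h1]
      simp
    · have hJ1 : 1 ≤ Nat.clog 2 M := Nat.clog_pos (by norm_num) h1
      have hlt : 2 ^ (Nat.clog 2 M).pred < M := Nat.pow_pred_clog_lt_self (by norm_num) h1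
      have hltR : (2 : ℝ) ^ ((Nat.clog 2 M).pred : ℕ) < M := by exact_mod_cast hlt
      have h2 := Real.log_lt_log (by positivity) hltR
      rw [Real.log_pow] at h2
      have h3 : (((Nat.clog 2 M).pred : ℕ) : ℝ) = (Nat.clog 2 M : ℝ) - 1 := by
        rw [Nat.pred_eq_sub_one, Nat.cast_sub hJ1]
        simp
      rw [h3] at h2
      have hJ1R : (1 : ℝ) ≤ (Nat.clog 2 M : ℝ) := by exact_mod_cast hJ1
      nlinarith

theorem blk (hPB : Pool.QN.PBStmt) (hLOC : Pool.QN.LOCStmt) (hLVL : S_LVL) : S_BLK := by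
  intro c B ε hε
  obtain ⟨C₀, hC₀, hPB'⟩ := hPB c B (ε / 2) (by positivity)
  obtain ⟨C₂, hC₂, hLOC'⟩ := hLOC c B
  set C₁ : ℝ := max C₀ 1 with hC₁
  have hC₁1 : 1 ≤ C₁ := le_max_right _ _
  have hC₀₁ : C₀ ≤ C₁ := le_max_left _ _
  set C₃ : ℝ := 2 + 4 / ε with hC₃
  have hC₃0 : 0 < C₃ := by positivity
  refine ⟨Real.sqrt C₁ * C₂ * (1 + C₃) + 16 * C₃ * C₁, by positivity, ?_⟩
  intro φ φ1 φ2 hcur hφ s M hs hM a α β hα hαβ hβ
  have hM1 : (1 : ℝ) ≤ M := by exact_mod_cast hM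
  have hM0 : (0 : ℝ) < M := by linarith
  set A : ℝ := ∑ k ∈ range M, ‖a k‖ ^ 2 with hA
  have hA0 : 0 ≤ A := Finset.sum_nonneg fun k _ => by positivity
  set f : ℝ → ℝ := fun x => ‖Pool.QN.FA s (s * M) M a φ x‖ with hf
  have hf0 : ∀ x, 0 ≤ f x := fun x => norm_nonneg _
  have hfc : Continuous f := by
    have h1 : Continuous (fun x => Pool.QN.FA s (s * M) M a φ x) := by
      unfold Pool.QN.FA Pool.QN.uu
      refine continuous_finset_sum _ fun k _ => ?_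
      refine continuous_const.mul (blk_cont_ee.comp ?_)
      fun_prop
    exact h1.norm
  -- `f² ≤ M A`
  have hfle : ∀ x, f x ^ 2 ≤ M * A := by
    intro x
    have h1 : f x ≤ ∑ k ∈ range M, ‖a k‖ := by
      refine (norm_sum_le _ _).trans (Finset.sum_le_sum fun k _ => ?_)
      rw [norm_mul]
      unfold Pool.QN.uu
      rw [blk_norm_ee, mul_one]
    have h2 : (∑ k ∈ range M, ‖a k‖) ^ 2 ≤ M * A := by
      have := sq_sum_le_card_mul_sum_sq (s := range M) (f := fun k => ‖a k‖)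
      rwa [card_range] at this
    exact (pow_le_pow_left₀ (hf0 x) h1 2).trans h2
  have hMe : (1 : ℝ) ≤ (M : ℝ) ^ ε := Real.one_le_rpow hM1 hε.le
  have hMe2 : (1 : ℝ) ≤ (M : ℝ) ^ (ε / 2) := Real.one_le_rpow hM1 (by positivity)
  have hMh : (0 : ℝ) ≤ (M : ℝ) ^ (1 / 2 : ℝ) := Real.rpow_nonneg hM0.le _
  have hd : 0 ≤ β - α := by linarith
  rcases hA0.eq_or_lt with hAz | hApos
  · -- everything is zero
    have hfz : ∀ x, f x = 0 := by
      intro x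
      have h1 := hfle x
      rw [← hAz, mul_zero] at h1
      have h2 : f x ^ 2 = 0 := le_antisymm h1 (by positivity)
      exact pow_eq_zero_iff (two_ne_zero) |>.1 h2
    have h1 : ∫ x in α..β, ‖Pool.QN.FA s (s * M) M a φ x‖ ^ 4 = 0 := by
      have h2 : ∀ x, ‖Pool.QN.FA s (s * M) M a φ x‖ ^ 4 = 0 := by
        intro x
        have := hfz x
        rw [hf] at this
        simp only at this
        rw [this]
        norm_num
      simp only [h2, intervalIntegral.integral_zero]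
    rw [h1]
    positivity
  -- the level `l`
  set l : ℝ := Real.sqrt (Real.sqrt (C₁ * (M : ℝ) ^ (1 + ε / 2)) * A) with hl
  have hb0 : 0 < C₁ * (M : ℝ) ^ (1 + ε / 2) := by positivity
  have hl2 : l ^ 2 = Real.sqrt (C₁ * (M : ℝ) ^ (1 + ε / 2)) * A := by
    rw [hl]
    exact Real.sq_sqrt (by positivity)
  have hl4 : l ^ 4 = C₁ * (M : ℝ) ^ (1 + ε / 2) * A ^ 2 := by
    have h1 : l ^ 4 = (l ^ 2) ^ 2 := by ring
    rw [h1, hl2, mul_pow, Real.sq_sqrt hb0.le]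
  have hl0 : 0 < l := by
    rw [hl]
    positivity
  set W : ℝ := C₁ * (M : ℝ) ^ (ε / 2) * A ^ 2 with hW
  have hW0 : 0 ≤ W := by positivity
  set J : ℕ := Nat.clog 2 M with hJ
  have hMl : ∀ x, f x ≤ 2 ^ J * l := by
    intro x
    have h1 : (M : ℝ) * A ≤ (M * l) ^ 2 := by
      rw [mul_pow, hl2]
      have h2 : (1 : ℝ) ≤ Real.sqrt (C₁ * (M : ℝ) ^ (1 + ε / 2)) := by
        rw [Real.one_le_sqrt]
        have : (1 : ℝ) ≤ (M : ℝ) ^ (1 + ε / 2) := Real.one_le_rpow hM1 (by positivity)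
        nlinarith
      calc (M : ℝ) * A = M * (1 * A) := by ring
        _ ≤ M * (Real.sqrt (C₁ * (M : ℝ) ^ (1 + ε / 2)) * A) := by gcongr
        _ ≤ (M : ℝ) ^ 2 * (Real.sqrt (C₁ * (M : ℝ) ^ (1 + ε / 2)) * A) := by
          have : (M : ℝ) ≤ (M : ℝ) ^ 2 := by nlinarith
          gcongr
    have h2 : f x ≤ M * l :=
      le_of_sq_le_sq ((hfle x).trans h1) (by positivity)
    have h3 : (M : ℝ) ≤ 2 ^ J := by
      exact_mod_cast Nat.le_pow_clog (by norm_num) M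
    exact h2.trans (mul_le_mul_of_nonneg_right h3 hl0.le)
  have hlev : ∀ t : ℝ, l ≤ t → t ^ 4 * (Pool.QN.mu {x | t ≤ f x}).toReal ≤ W := by
    intro t ht
    have hs0 : s ≠ 0 := by
      rcases hs with rfl | rfl <;> norm_num
    have h1 := hPB' φ φ1 φ2 hcur s (s * M) hs0 M hM a t (lt_of_lt_of_le hl0 ht) (by
      have h2 : l ^ 4 ≤ t ^ 4 := pow_le_pow_left₀ hl0.le ht 4
      refine le_trans ?_ h2
      rw [hl4]
      gcongr)
    refine h1.trans ?_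
    rw [hW]
    gcongr
  have key := hLVL f α β l W J hfc hf0 hα hαβ hβ hl0 hW0 hMl hlev
  -- the second moment
  have hsum2 : ∫ x in α..β, f x ^ 2 ≤ C₂ * ((β - α) + (1 + Real.log ((2 * M : ℕ) : ℝ)) / M) * A := by
    have hinj : Set.InjOn (fun k : ℕ => s * (M : ℤ) + s * (k : ℤ)) (range M) := by
      intro k _ k' _ h
      simp only at h
      rcases hs with rfl | rfl <;> omega
    set S : Finset ℤ := (range M).image (fun k : ℕ => s * (M : ℤ) + s * (k : ℤ)) with hS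
    set a' : ℤ → ℂ := fun n => a ((s * n).toNat - M) with ha'
    have hval : ∀ k : ℕ, a' (s * (M : ℤ) + s * (k : ℤ)) = a k := by
      intro k
      rw [ha']
      simp only
      congr 1
      have h1 : s * (s * (M : ℤ) + s * (k : ℤ)) = M + k := by
        rcases hs with rfl | rfl <;> ring
      rw [h1]
      omega
    have hFF : ∀ x, Pool.QN.FF S a' φ x = Pool.QN.FA s (s * M) M a φ x := by
      intro x
      unfold Pool.QN.FF Pool.QN.FA Pool.QN.uu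
      rw [hS, Finset.sum_image hinj]
      refine Finset.sum_congr rfl fun k _ => ?_
      rw [hval k]
      congr 2
      push_cast
      ring
    have hA' : ∑ n ∈ S, ‖a' n‖ ^ 2 = A := by
      rw [hS, Finset.sum_image hinj, hA]
      exact Finset.sum_congr rfl fun k _ => by rw [hval k]
    have h1 := hLOC' φ φ1 φ2 hcur α β hα hαβ hβ M (2 * M) hM (by omega) S (by
      intro n hn
      rw [hS, mem_image] at hn
      obtain ⟨k, hk, rfl⟩ := hn
      rw [mem_range] at hk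
      rcases hs with rfl | rfl
      · constructor
        · rw [abs_of_nonneg (by positivity)]
          push_cast
          omega
        · rw [abs_of_nonneg (by positivity)]
          push_cast
          omega
      · have h2 : (-1 : ℤ) * (M : ℤ) + (-1) * (k : ℤ) = -((M : ℤ) + k) := by ring
        rw [h2, abs_neg, abs_of_nonneg (by positivity)]
        constructor
        · omega
        · push_cast
          omega) a'
    rw [hA'] at h1
    have h2 : ∀ x, ‖Pool.QN.FF S a' φ x‖ ^ 2 = f x ^ 2 := by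
      intro x
      rw [hFF x]
    simp only [h2] at h1
    exact h1
  obtain ⟨hn1, hn2⟩ := blk_num ε hε M hM
  -- powers of `M`
  have hsq : Real.sqrt (C₁ * (M : ℝ) ^ (1 + ε / 2)) = Real.sqrt C₁ * (M : ℝ) ^ (1 / 2 + ε / 4) := by
    rw [Real.sqrt_mul (by linarith), Real.sqrt_eq_rpow ((M : ℝ) ^ (1 + ε / 2)),
      ← Real.rpow_mul hM0.le]
    congr 2
    ring
  have hp1 : (M : ℝ) ^ (1 / 2 + ε / 4) ≤ (M : ℝ) ^ ε * (M : ℝ) ^ (1 / 2 : ℝ) := by
    rw [← Real.rpow_add hM0]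
    exact Real.rpow_le_rpow_of_exponent_le hM1 (by linarith)
  have hp2 : (M : ℝ) ^ (1 / 2 + ε / 4) * ((M : ℝ) ^ (ε / 2) / M) ≤ (M : ℝ) ^ ε := by
    have h1 : (M : ℝ) ^ (ε / 2) / M = (M : ℝ) ^ (ε / 2 - 1) := by
      rw [Real.rpow_sub_one hM0.ne']
    rw [h1, ← Real.rpow_add hM0]
    exact Real.rpow_le_rpow_of_exponent_le hM1 (by linarith)
  have hp3 : (M : ℝ) ^ (ε / 2) * (M : ℝ) ^ (ε / 2) = (M : ℝ) ^ ε := by
    rw [← Real.rpow_add hM0]
    congr 1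
    ring
  have hsC : 0 ≤ Real.sqrt C₁ := Real.sqrt_nonneg _
  have t1 : l ^ 2 * (∫ x in α..β, f x ^ 2) ≤
      Real.sqrt C₁ * C₂ * (1 + C₃) * (M : ℝ) ^ ε * ((M : ℝ) ^ (1 / 2 : ℝ) * (β - α) + 1) * A ^ 2 := by
    have h1 : l ^ 2 * (∫ x in α..β, f x ^ 2) ≤ l ^ 2 *
        (C₂ * ((β - α) + (1 + Real.log ((2 * M : ℕ) : ℝ)) / M) * A) :=
      mul_le_mul_of_nonneg_left hsum2 (by positivity)
    refine h1.trans ?_
    rw [hl2, hsq]
    have h2 : (1 + Real.log ((2 * M : ℕ) : ℝ)) / M ≤ C₃ * ((M : ℝ) ^ (ε / 2) / M) := by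
      rw [← mul_div_assoc]
      gcongr
    calc Real.sqrt C₁ * (M : ℝ) ^ (1 / 2 + ε / 4) * A *
          (C₂ * ((β - α) + (1 + Real.log ((2 * M : ℕ) : ℝ)) / M) * A)
        ≤ Real.sqrt C₁ * (M : ℝ) ^ (1 / 2 + ε / 4) * A *
          (C₂ * ((β - α) + C₃ * ((M : ℝ) ^ (ε / 2) / M)) * A) := by gcongr
      _ = Real.sqrt C₁ * C₂ * A ^ 2 * ((M : ℝ) ^ (1 / 2 + ε / 4) * (β - α) +
          C₃ * ((M : ℝ) ^ (1 / 2 + ε / 4) * ((M : ℝ) ^ (ε / 2) / M))) := by ring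
      _ ≤ Real.sqrt C₁ * C₂ * A ^ 2 * ((M : ℝ) ^ ε * (M : ℝ) ^ (1 / 2 : ℝ) * (β - α) +
          C₃ * (M : ℝ) ^ ε) := by gcongr
      _ ≤ Real.sqrt C₁ * C₂ * A ^ 2 * ((1 + C₃) * ((M : ℝ) ^ ε *
          ((M : ℝ) ^ (1 / 2 : ℝ) * (β - α) + 1))) := by
        gcongr
        have h3 : 0 ≤ C₃ * ((M : ℝ) ^ ε * ((M : ℝ) ^ (1 / 2 : ℝ) * (β - α))) := by positivity
        have h4 : 0 ≤ (M : ℝ) ^ ε := by positivity
        nlinarith
      _ = _ := by ring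
  have t2 : 16 * ((J : ℝ) + 1) * W ≤
      16 * C₃ * C₁ * (M : ℝ) ^ ε * ((M : ℝ) ^ (1 / 2 : ℝ) * (β - α) + 1) * A ^ 2 := by
    have h1 : (1 : ℝ) ≤ (M : ℝ) ^ (1 / 2 : ℝ) * (β - α) + 1 := by
      have : 0 ≤ (M : ℝ) ^ (1 / 2 : ℝ) * (β - α) := by positivity
      linarith
    calc 16 * ((J : ℝ) + 1) * W ≤ 16 * (C₃ * (M : ℝ) ^ (ε / 2)) * W := by gcongr
      _ = 16 * C₃ * C₁ * ((M : ℝ) ^ (ε / 2) * (M : ℝ) ^ (ε / 2)) * 1 * A ^ 2 := by
        rw [hW]; ring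
      _ = 16 * C₃ * C₁ * (M : ℝ) ^ ε * 1 * A ^ 2 := by rw [hp3]
      _ ≤ 16 * C₃ * C₁ * (M : ℝ) ^ ε * ((M : ℝ) ^ (1 / 2 : ℝ) * (β - α) + 1) * A ^ 2 := by gcongr
  have hfin : ∫ x in α..β, f x ^ 4 ≤ (Real.sqrt C₁ * C₂ * (1 + C₃) + 16 * C₃ * C₁) * (M : ℝ) ^ ε *
      ((M : ℝ) ^ (1 / 2 : ℝ) * (β - α) + 1) * A ^ 2 := by
    refine key.trans ?_
    calc l ^ 2 * (∫ x in α..β, f x ^ 2) + 16 * ((J : ℝ) + 1) * W
        ≤ Real.sqrt C₁ * C₂ * (1 + C₃) * (M : ℝ) ^ ε * ((M : ℝ) ^ (1 / 2 : ℝ) * (β - α) + 1) * A ^ 2 +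
          16 * C₃ * C₁ * (M : ℝ) ^ ε * ((M : ℝ) ^ (1 / 2 : ℝ) * (β - α) + 1) * A ^ 2 :=
        add_le_add t1 t2
      _ = _ := by ring
  exact hfin

end Pool.Agent.H79.QN
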